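import Pool.Agent.FGT.Stmts

/-!
Row EQV of table fgt (MP_c4a8aa_al).
-/

namespace Pool.Agent.FGT.H90

open Pool.Agent.FGT

universe u

theorem eqv (hkra : KraStmt.{u}) (hpsd : PsdStmt.{u}) : EqvStmt.{u} := by
  intro L _ α hα I hI z z' z'' h1 h2 h3 h4
  obtain ⟨-, -, hsym, hdiag, hle, -, -⟩ := hkra L α hα I hI
  by_cases e1 : z = z'
  · rw [e1] at h3 ⊢
    rw [h4, e1]
  by_cases e2 : z' = z''
  · rw [← e2]
    exact h3
  by_cases e3 : z = z''
  · rw [← e3]
    exact hdiag z
  refine le_antisymm (hle z z'').2.1 ?_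
  classical
  have h := hpsd L α hα I hI {z, z', z''} (fun i => if i = z then 1 else if i = z' then -2 else 1)
  have n1 : z ∉ ({z', z''} : Finset ℤ) := by simp [e1, e3]
  have n2 : z' ∉ ({z''} : Finset ℤ) := by simp [e2]
  have e1' : ¬ z' = z := fun h => e1 h.symm
  have e2' : ¬ z'' = z' := fun h => e2 h.symm
  have e3' : ¬ z'' = z := fun h => e3 h.symm
  simp only [Finset.sum_insert n1, Finset.sum_insert n2, Finset.sum_singleton, if_pos, if_neg,
    e1', e2', e3', not_false_eq_true, hdiag, hsym z' z, hsym z'' z, hsym z'' z', h1, h2, h3,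
    h4] at h
  linarith

end Pool.Agent.FGT.H90
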